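import Pool.Agent.helper55.ZI.Spec2

/-!
# Row zi:TWO (MP_337222_al): two points
-/

set_option autoImplicit false

namespace Pool.Agent.helper16.ZI

open Pool.Agent.ZI

universe u

theorem TWO_uniform (R : Type u) [Ring R] (T : Type u) [AddCommGroup T] [Module R T] (h : IsSimpleModule R T) :
    Uniform R T := by
  have hn : Nontrivial T := IsSimpleModule.nontrivial R T
  refine ⟨hn, fun A B hA hB => ?_⟩
  have h1 : A = ⊤ := (eq_bot_or_eq_top A).resolve_left hA
  have h2 : B = ⊤ := (eq_bot_or_eq_top B).resolve_left hB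
  rw [h1, h2, inf_top_eq]
  exact top_ne_bot

/-- the range of an injective map from a simple module is an atom -/
theorem TWO_atom {R : Type u} [Ring R] {T N : Type u} [AddCommGroup T] [Module R T] [AddCommGroup N] [Module R N]
    (h : IsSimpleModule R T) (f : T →ₗ[R] N) (hf : Function.Injective f) : IsAtom (LinearMap.range f) := by
  rw [← isSimpleModule_iff_isAtom]
  exact IsSimpleModule.congr (LinearEquiv.ofInjective f hf).symm

theorem TWO (hTRE : TRE_stmt.{u}) (hPTH : PTH_stmt.{u}) (hTOW : TOW_stmt.{u}) (hHUL : HUL_stmt.{u})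
    (hSIM : SIM_stmt.{u}) : TWO_stmt.{u} := by
  intro R _ S hS e he he0 hdiv
  by_cases hb : ∀ m (L : Ideal (S m)), Node S e m L → Branches S e m L
  · obtain ⟨σ, hσ, T, iT, mT, s₀, hs0, hes, hP⟩ := hPTH R S hS e he he0 hb
    obtain ⟨M, iM, mM, hMu, hMs, x, hx⟩ := hTOW R (fun k => S (σ k)) (hS.mono.comp hσ.monotone)
      (fun r => by
        obtain ⟨n, hn⟩ := hS.cov r
        exact ⟨n, hS.mono (hσ.le_apply) hn⟩) T s₀ e hs0 hes hP
    obtain ⟨T', iT', mT', hT', t, ht, het⟩ := hSIM R e he he0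
    obtain ⟨N₁, i1, m1, hB1, hU1, f1, hf1, hess1⟩ := hHUL R M hMu
    obtain ⟨N₂, i2, m2, hB2, hU2, f2, hf2, hess2⟩ := hHUL R T' (TWO_uniform R T' hT')
    refine ⟨N₁, i1, m1, N₂, i2, m2, hB1, hU1, hB2, hU2, ⟨f1 x, ?_⟩, ⟨f2 t, ?_⟩, ?_⟩
    · rw [← map_smul]
      intro h
      exact hx (hf1 (h.trans (map_zero f1).symm))
    · rw [← map_smul, het]
      intro h
      exact ht (hf2 (h.trans (map_zero f2).symm))
    · rintro ⟨φ⟩
      let ψ : T' →ₗ[R] N₁ := φ.symm.toLinearMap.comp f2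
      have hψ : Function.Injective ψ := φ.symm.injective.comp hf2
      have hA := TWO_atom hT' ψ hψ
      have h1 := hess1 _ hA.1
      have h2 : LinearMap.range ψ ≤ LinearMap.range f1 := by
        have h3 : LinearMap.range ψ ⊓ LinearMap.range f1 = LinearMap.range ψ :=
          (hA.le_iff.mp inf_le_left).resolve_left h1
        exact inf_eq_left.mp h3
      have h4 : Submodule.map f1 (Submodule.comap f1 (LinearMap.range ψ)) = LinearMap.range ψ := by
        rw [Submodule.map_comap_eq]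
        exact inf_eq_right.mpr h2
      apply hMs (Submodule.comap f1 (LinearMap.range ψ))
      have h5 : IsSimpleModule R (LinearMap.range ψ) := isSimpleModule_iff_isAtom.mpr hA
      exact IsSimpleModule.congr ((Submodule.equivMapOfInjective f1 hf1 _).trans (LinearEquiv.ofEq _ _ h4))
  · push Not at hb
    obtain ⟨m, L, hN, hnb⟩ := hb
    obtain ⟨T₁, j1, k1, T₂, j2, k2, hs1, hs2, ⟨x1, hx1⟩, ⟨x2, hx2⟩, hno⟩ := hTRE R S hS e he he0 hdiv m L hN hnb
    obtain ⟨N₁, i1, m1, hB1, hU1, f1, hf1, hess1⟩ := hHUL R T₁ (TWO_uniform R T₁ hs1)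
    obtain ⟨N₂, i2, m2, hB2, hU2, f2, hf2, hess2⟩ := hHUL R T₂ (TWO_uniform R T₂ hs2)
    refine ⟨N₁, i1, m1, N₂, i2, m2, hB1, hU1, hB2, hU2, ⟨f1 x1, ?_⟩, ⟨f2 x2, ?_⟩, ?_⟩
    · rw [← map_smul]
      intro h
      exact hx1 (hf1 (h.trans (map_zero f1).symm))
    · rw [← map_smul]
      intro h
      exact hx2 (hf2 (h.trans (map_zero f2).symm))
    · rintro ⟨φ⟩
      let ψ : T₁ →ₗ[R] N₂ := φ.toLinearMap.comp f1
      have hψ : Function.Injective ψ := φ.injective.comp hf1
      have hA := TWO_atom hs1 ψ hψ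
      have hA2 := TWO_atom hs2 f2 hf2
      have h1 := hess2 _ hA.1
      have h3 : LinearMap.range ψ ⊓ LinearMap.range f2 = LinearMap.range ψ :=
        (hA.le_iff.mp inf_le_left).resolve_left h1
      have h4 : LinearMap.range ψ ⊓ LinearMap.range f2 = LinearMap.range f2 :=
        (hA2.le_iff.mp inf_le_right).resolve_left h1
      have h5 : LinearMap.range ψ = LinearMap.range f2 := h3.symm.trans h4
      exact hno ⟨(LinearEquiv.ofInjective ψ hψ).trans ((LinearEquiv.ofEq _ _ h5).trans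
        (LinearEquiv.ofInjective f2 hf2).symm)⟩

end Pool.Agent.helper16.ZI
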